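import Pool.Agent.helper43.NS.Defs

set_option autoImplicit false

open Finset

namespace Pool.Agent.helper95.NS

open Pool.Agent.helper43.NO
open Pool.Agent.helper43.NS

lemma NSC_dvd_iff (P : Finset ℕ) (hP : ∀ p ∈ P, p.Prime) {T : Finset ℕ} (hT : T ⊆ P) (m : ℕ) :
    (∏ p ∈ T, p) ∣ m ↔ ∀ p ∈ T, p ∣ m := by
  constructor
  · intro h p hp
    exact (Finset.dvd_prod_of_mem (fun p => p) hp).trans h
  · intro h
    exact Finset.prod_primes_dvd m (fun p hp => (hP p (hT hp)).prime) h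

lemma NSC_dvd_union (P : Finset ℕ) (hP : ∀ p ∈ P, p.Prime) {T T' : Finset ℕ} (hT : T ⊆ P)
    (hT' : T' ⊆ P) (m : ℕ) :
    (∏ p ∈ T ∪ T', p) ∣ m ↔ (∏ p ∈ T, p) ∣ m ∧ (∏ p ∈ T', p) ∣ m := by
  rw [NSC_dvd_iff P hP hT, NSC_dvd_iff P hP hT', NSC_dvd_iff P hP (Finset.union_subset hT hT')]
  constructor
  · intro h
    exact ⟨fun p hp => h p (Finset.mem_union_left _ hp), fun p hp => h p (Finset.mem_union_right _ hp)⟩
  · rintro ⟨h1, h2⟩ p hp
    rcases Finset.mem_union.1 hp with hp | hp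
    · exact h1 p hp
    · exact h2 p hp

lemma NSC_conv_eq (P : Finset ℕ) (c c' : Finset ℕ → ℝ) {U : Finset ℕ} (hU : U ⊆ P) :
    conv c c' U =
      ∑ T ∈ P.powerset, ∑ T' ∈ P.powerset, if T ∪ T' = U then c T * c' T' else 0 := by
  unfold conv
  have hsub : U.powerset ⊆ P.powerset := Finset.powerset_mono.2 hU
  have h1 : ∀ T, ∑ T' ∈ U.powerset, (if T ∪ T' = U then c T * c' T' else 0) =
      ∑ T' ∈ P.powerset, (if T ∪ T' = U then c T * c' T' else 0) := by
    intro T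
    apply Finset.sum_subset hsub
    intro T' _ hT'
    rw [if_neg]
    intro h
    apply hT'
    rw [Finset.mem_powerset, ← h]
    exact Finset.subset_union_right
  rw [Finset.sum_congr rfl (fun T _ => h1 T)]
  apply Finset.sum_subset hsub
  intro T _ hT
  apply Finset.sum_eq_zero
  intro T' _
  rw [if_neg]
  intro h
  apply hT
  rw [Finset.mem_powerset, ← h]
  exact Finset.subset_union_left

/-- `∏ T ∣ m` iff all primes of `T` divide `m`, so `∏ T ∣ m ∧ ∏ T' ∣ m ↔ ∏ (T ∪ T') ∣ m` -/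
lemma Gf_mul (P : Finset ℕ) (hP : ∀ p ∈ P, p.Prime) (c c' : Finset ℕ → ℝ) (m : ℕ) :
    Gf P c m * Gf P c' m = Gf P (conv c c') m := by
  have h1 : Gf P (conv c c') m = ∑ U ∈ P.powerset, ∑ T ∈ P.powerset, ∑ T' ∈ P.powerset,
      (if T ∪ T' = U then (if (∏ p ∈ U, p) ∣ m then c T * c' T' else 0) else 0) := by
    unfold Gf
    apply Finset.sum_congr rfl
    intro U hU
    rw [NSC_conv_eq P c c' (Finset.mem_powerset.1 hU)]
    split_ifs with h
    · rfl
    · symm
      apply Finset.sum_eq_zero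
      intro T _
      apply Finset.sum_eq_zero
      intro T' _
      split_ifs <;> rfl
  rw [h1, Finset.sum_comm]
  unfold Gf
  rw [Finset.sum_mul_sum]
  apply Finset.sum_congr rfl
  intro T hT
  rw [Finset.sum_comm]
  apply Finset.sum_congr rfl
  intro T' hT'
  rw [Finset.mem_powerset] at hT hT'
  rw [Finset.sum_ite_eq, if_pos (Finset.mem_powerset.2 (Finset.union_subset hT hT'))]
  by_cases ha : (∏ p ∈ T, p) ∣ m
  · by_cases hb : (∏ p ∈ T', p) ∣ m
    · rw [if_pos ha, if_pos hb, if_pos ((NSC_dvd_union P hP hT hT' m).2 ⟨ha, hb⟩)]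
    · rw [if_neg hb, mul_zero, if_neg (fun h => hb ((NSC_dvd_union P hP hT hT' m).1 h).2)]
  · rw [if_neg ha, zero_mul, if_neg (fun h => ha ((NSC_dvd_union P hP hT hT' m).1 h).1)]

/-- `∑_{T ⊆ U} 2^|T| = 3^|U|` -/
lemma conv_abs (P : Finset ℕ) (c c' : Finset ℕ → ℝ)
    (h : ∀ T ∈ P.powerset, |c T| ≤ 2 * 2 ^ T.card) (h' : ∀ T ∈ P.powerset, |c' T| ≤ 2 * 2 ^ T.card)
    (U : Finset ℕ) (hU : U ∈ P.powerset) : |conv c c' U| ≤ 4 * 9 ^ U.card := by
  have hUP : U ⊆ P := Finset.mem_powerset.1 hU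
  have hs : ∑ T ∈ U.powerset, (2 : ℝ) * 2 ^ T.card = 2 * 3 ^ U.card := by
    rw [← Finset.mul_sum]
    congr 1
    have h1 := Finset.sum_pow_mul_eq_add_pow (2 : ℝ) 1 U
    have h2 : (2 : ℝ) + 1 = 3 := by norm_num
    rw [h2] at h1
    rw [← h1]
    apply Finset.sum_congr rfl
    intro T _
    rw [one_pow, mul_one]
  have hb : |conv c c' U| ≤ ∑ T ∈ U.powerset, ∑ T' ∈ U.powerset, |c T| * |c' T'| := by
    unfold conv
    refine (Finset.abs_sum_le_sum_abs _ _).trans ?_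
    apply Finset.sum_le_sum
    intro T _
    refine (Finset.abs_sum_le_sum_abs _ _).trans ?_
    apply Finset.sum_le_sum
    intro T' _
    split_ifs
    · rw [abs_mul]
    · rw [abs_zero]
      exact mul_nonneg (abs_nonneg _) (abs_nonneg _)
  refine hb.trans ?_
  rw [← Finset.sum_mul_sum]
  have h1 : ∑ T ∈ U.powerset, |c T| ≤ 2 * 3 ^ U.card := by
    rw [← hs]
    apply Finset.sum_le_sum
    intro T hT
    exact h T (Finset.mem_powerset.2 ((Finset.mem_powerset.1 hT).trans hUP))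
  have h2 : ∑ T ∈ U.powerset, |c' T| ≤ 2 * 3 ^ U.card := by
    rw [← hs]
    apply Finset.sum_le_sum
    intro T hT
    exact h' T (Finset.mem_powerset.2 ((Finset.mem_powerset.1 hT).trans hUP))
  calc (∑ T ∈ U.powerset, |c T|) * (∑ T ∈ U.powerset, |c' T|)
      ≤ (2 * 3 ^ U.card) * (2 * 3 ^ U.card) :=
        mul_le_mul h1 h2 (Finset.sum_nonneg fun T _ => abs_nonneg _) (by positivity)
    _ = 4 * 9 ^ U.card := by
        have h3 : (9 : ℝ) = 3 * 3 := by norm_num
        rw [h3, mul_pow]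
        ring

lemma conv_zero (P : Finset ℕ) (D : ℕ) (c c' : Finset ℕ → ℝ)
    (h : ∀ T ∈ P.powerset, D < T.card → c T = 0) (h' : ∀ T ∈ P.powerset, D < T.card → c' T = 0)
    (U : Finset ℕ) (hU : U ∈ P.powerset) (hD : 2 * D < U.card) : conv c c' U = 0 := by
  have hUP : U ⊆ P := Finset.mem_powerset.1 hU
  unfold conv
  apply Finset.sum_eq_zero
  intro T hT
  apply Finset.sum_eq_zero
  intro T' hT'
  split_ifs with hTT
  · have h1 : T ∈ P.powerset := Finset.mem_powerset.2 ((Finset.mem_powerset.1 hT).trans hUP)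
    have h2 : T' ∈ P.powerset := Finset.mem_powerset.2 ((Finset.mem_powerset.1 hT').trans hUP)
    have h3 : U.card ≤ T.card + T'.card := by
      rw [← hTT]
      exact Finset.card_union_le _ _
    rcases Nat.lt_or_ge D T.card with h4 | h4
    · rw [h T h1 h4, zero_mul]
    · rw [h' T' h2 (by omega), mul_zero]
  · rfl

end Pool.Agent.helper95.NS
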